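import Pool.Agent.MP_17fac5_an.Js.Fin

set_option autoImplicit false
open MeasureTheory Filter Topology

namespace Pool.Agent.Results.MP_17fac5_an.JensenSplit

/-- For a weight `G` on the disc, not assumed radial, between two powers of a Lipschitz function
vanishing on the circle, the part of the boundary space carried by `S` splits off if and only if no
Jensen measure with finite logarithmic integrals gives mass to `S`. -/
theorem result :
    ∀ (γ G W : ℂ → ℝ) (L : NNReal) (s t c C : ℝ) (S : Set ℂ),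
      LipschitzWith L γ →
      (∀ z : ℂ, ‖z‖ < 1 → 0 ≤ γ z) →
      (∀ z : ℂ, ‖z‖ = 1 → γ z = 0) →
      2 < s → 0 < t → 0 < c →
      Measurable G →
      (∀ z : ℂ, ‖z‖ < 1 → c * γ z ^ t ≤ G z ∧ G z ≤ C * γ z ^ s) →
      Measurable W →
      (∀ z : ℂ, 0 ≤ W z) →
      (∫⁻ θ in Set.Ioc (0 : ℝ) (2 * Real.pi),
          ENNReal.ofReal (W (Complex.exp ((θ : ℂ) * Complex.I)))) < ⊤ →
      MeasurableSet S →
      ((∀ g : ℂ → ℂ, Measurable g → (∀ z : ℂ, z ∉ S → g z = 0) →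
          (∫⁻ θ in Set.Ioc (0 : ℝ) (2 * Real.pi),
              ENNReal.ofReal (W (Complex.exp ((θ : ℂ) * Complex.I))) *
                ‖g (Complex.exp ((θ : ℂ) * Complex.I))‖ₑ ^ (2 : ℕ)) < ⊤ →
          ∀ ε : ℝ, 0 < ε →
            ∃ p : Polynomial ℂ,
              (∫⁻ z in Metric.ball (0 : ℂ) 1,
                  ENNReal.ofReal (G z) * ‖p.eval z‖ₑ ^ (2 : ℕ)) < ENNReal.ofReal ε ∧
              (∫⁻ θ in Set.Ioc (0 : ℝ) (2 * Real.pi),
                  ENNReal.ofReal (W (Complex.exp ((θ : ℂ) * Complex.I))) *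
                    ‖p.eval (Complex.exp ((θ : ℂ) * Complex.I)) -
                      g (Complex.exp ((θ : ℂ) * Complex.I))‖ₑ ^ (2 : ℕ)) < ENNReal.ofReal ε) ↔
      ∀ (z₀ : ℂ) (ω : Measure ℂ), ‖z₀‖ < 1 → IsProbabilityMeasure ω →
        ω (Metric.closedBall (0 : ℂ) 1)ᶜ = 0 →
        (∀ (p : Polynomial ℂ) (ε : ℝ), 0 < ε →
          Real.log (‖p.eval z₀‖ + ε) ≤ ∫ z, Real.log (‖p.eval z‖ + ε) ∂ω) →
        (∫⁻ z in Metric.ball (0 : ℂ) 1,
          (if γ z = 0 then (⊤ : ENNReal) else ENNReal.ofReal (-Real.log (γ z))) ∂ω) < ⊤ →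
        (∫⁻ z in Metric.sphere (0 : ℂ) 1,
          (if W z = 0 then (⊤ : ENNReal) else ENNReal.ofReal (-Real.log (W z))) ∂ω) < ⊤ →
        ω (S ∩ Metric.sphere (0 : ℂ) 1) = 0) := by
  intro γ G W L s t c C S h1 h2 h3 hs ht hc _ hG hW hW0 hWi hS
  have key := Pool.Agent.MP_17fac5_an.Js.crit ⟨h1, h2, h3⟩ hs ht hc hG
    ⟨hW, hW0, by rwa [Pool.Agent.MP_17fac5_an.Js.lint_sig hW.ennreal_ofReal]⟩ hS
  constructor
  · intro h z₀ ω a1 a2 a3 a4 a5 a6
    refine key.1 (fun g hg hz hn ε hε => ?_) z₀ ω ⟨a1, a2, a3, a4, a5, a6⟩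
    rw [Pool.Agent.MP_17fac5_an.Js.nW_eq hW hg] at hn
    obtain ⟨p, b1, b2⟩ := h g hg hz hn ε hε
    exact ⟨p, b1, by
      rwa [Pool.Agent.MP_17fac5_an.Js.nW_eq (g := fun ζ => p.eval ζ - g ζ) hW
        (p.continuous.measurable.sub hg)]⟩
  · intro h g hg hz hn ε hε
    obtain ⟨p, b1, b2⟩ := key.2 (fun z₀ ω a => h z₀ ω a.lt a.prob a.cl a.jen a.disc a.circ) g hg hz
      (by rwa [Pool.Agent.MP_17fac5_an.Js.nW_eq hW hg]) ε hε
    rw [Pool.Agent.MP_17fac5_an.Js.nW_eq (g := fun ζ => p.eval ζ - g ζ) hW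
        (p.continuous.measurable.sub hg)] at b2
    exact ⟨p, b1, b2⟩

end Pool.Agent.Results.MP_17fac5_an.JensenSplit
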