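import Pool.Agent.Mg.F17fac5.G17642c

set_option autoImplicit false
open MeasureTheory Filter Topology

namespace Pool.Agent.Results.MP_17fac5_an.SharpWeight

/-- A radial weight of finite mass splits with every boundary weight whose logarithm has integral
minus infinity on every arc if and only if the mass of the annuli near the circle is at most
`exp (-c / (1 - r))` for some positive `c`. -/
theorem result :
    ∀ G : ℝ → ℝ,
      Measurable G →
      (∀ r : ℝ, 0 ≤ G r) →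
      (∫⁻ z in Metric.ball (0 : ℂ) 1, ENNReal.ofReal (G ‖z‖)) < ⊤ →
      ((∀ W : ℂ → ℝ,
        Measurable W →
        (∀ z : ℂ, 0 ≤ W z) →
        (∫⁻ θ in Set.Ioc (0 : ℝ) (2 * Real.pi),
            ENNReal.ofReal (W (Complex.exp ((θ : ℂ) * Complex.I)))) < ⊤ →
        (∀ a b : ℝ, a < b →
          (∫⁻ θ in Set.Ioo a b,
            (if W (Complex.exp ((θ : ℂ) * Complex.I)) = 0 then (⊤ : ENNReal)
             else ENNReal.ofReal (-Real.log (W (Complex.exp ((θ : ℂ) * Complex.I)))))) = ⊤) →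
        ∀ g : ℂ → ℂ, Measurable g →
          (∫⁻ θ in Set.Ioc (0 : ℝ) (2 * Real.pi),
              ENNReal.ofReal (W (Complex.exp ((θ : ℂ) * Complex.I))) *
                ‖g (Complex.exp ((θ : ℂ) * Complex.I))‖ₑ ^ (2 : ℕ)) < ⊤ →
          ∀ ε : ℝ, 0 < ε →
            ∃ p : Polynomial ℂ,
              (∫⁻ z in Metric.ball (0 : ℂ) 1,
                  ENNReal.ofReal (G ‖z‖) * ‖p.eval z‖ₑ ^ (2 : ℕ)) < ENNReal.ofReal ε ∧
              (∫⁻ θ in Set.Ioc (0 : ℝ) (2 * Real.pi),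
                  ENNReal.ofReal (W (Complex.exp ((θ : ℂ) * Complex.I))) *
                    ‖p.eval (Complex.exp ((θ : ℂ) * Complex.I)) -
                      g (Complex.exp ((θ : ℂ) * Complex.I))‖ₑ ^ (2 : ℕ)) < ENNReal.ofReal ε) ↔
      ∃ c : ℝ, 0 < c ∧ ∀ᶠ r in 𝓝[<] (1 : ℝ),
        (∫⁻ z in Metric.ball (0 : ℂ) 1 \ Metric.ball (0 : ℂ) r, ENNReal.ofReal (G ‖z‖)) ≤
          ENNReal.ofReal (Real.exp (-c / (1 - r)))) := by
  intro G hG _ hfin
  constructor
  · intro h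
    by_contra hn
    obtain ⟨a, ε, ha, hε, hp⟩ := Pool.Agent.MP_17fac5_an.H19.conv
      Pool.Agent.MP_17fac5_an.H19.swS Pool.Agent.MP_17fac5_an.H19.radS G hG hfin hn
    obtain ⟨p, h1, h2⟩ := h (Pool.Agent.MP_17fac5_an.H19.Wf a)
      (Pool.Agent.MP_17fac5_an.H19.Wf_meas a) (Pool.Agent.MP_17fac5_an.H19.Wf_nonneg a)
      (Pool.Agent.MP_17fac5_an.H19.Wf_int a) (Pool.Agent.MP_17fac5_an.H19.Wf_log ha)
      (fun z => (starRingEnd ℂ) z) Complex.continuous_conj.measurable (by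
        refine lt_of_le_of_lt (le_of_eq ?_) (Pool.Agent.MP_17fac5_an.H19.Wf_int a)
        refine lintegral_congr fun θ => ?_
        rw [← ofReal_norm, Complex.norm_conj, Complex.norm_exp_ofReal_mul_I]
        simp) ε hε
    exact hp p h1 h2
  · rintro ⟨c, hc, hT⟩ W hW hW0 hWi hL g hg hg2 ε hε
    exact Pool.Agent.MP_17fac5_an.H19.direct G hG hfin c hc hT W hW hW0 hWi hL g hg hg2 ε hε

end Pool.Agent.Results.MP_17fac5_an.SharpWeight
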