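import Pool.Agent.MP_17fac5_an.Ch.PE

set_option autoImplicit false
open MeasureTheory Filter Topology

namespace Pool.Agent.Results.MP_17fac5_an.ThinZeroSplit

/-- The radial weights of finite mass that split with every boundary weight vanishing on a set of
positive length in every arc, equivalently with every characteristic function of a set whose
complement has positive length in every arc, are given by a dyadic capacity condition. -/
theorem result :
    ∀ G : ℝ → ℝ,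
      Measurable G →
      (∀ r : ℝ, 0 ≤ G r) →
      (∫⁻ z in Metric.ball (0 : ℂ) 1, ENNReal.ofReal (G ‖z‖)) < ⊤ →
      List.TFAE [
        ∀ W : ℂ → ℝ,
          Measurable W →
          (∀ z : ℂ, 0 ≤ W z) →
          (∫⁻ θ in Set.Ioc (0 : ℝ) (2 * Real.pi),
            ENNReal.ofReal (W (Complex.exp ((θ : ℂ) * Complex.I)))) < ⊤ →
          (∀ a b : ℝ, a < b →
            0 < volume {θ : ℝ | θ ∈ Set.Ioo a b ∧ W (Complex.exp ((θ : ℂ) * Complex.I)) = 0}) →
          ∀ g : ℂ → ℂ, Measurable g →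
            (∫⁻ θ in Set.Ioc (0 : ℝ) (2 * Real.pi),
              ENNReal.ofReal (W (Complex.exp ((θ : ℂ) * Complex.I))) *
                ‖g (Complex.exp ((θ : ℂ) * Complex.I))‖ₑ ^ (2 : ℕ)) < ⊤ →
            ∀ ε : ℝ, 0 < ε →
              ∃ p : Polynomial ℂ,
                (∫⁻ z in Metric.ball (0 : ℂ) 1,
                  ENNReal.ofReal (G ‖z‖) * ‖p.eval z‖ₑ ^ (2 : ℕ)) < ENNReal.ofReal ε ∧
                (∫⁻ θ in Set.Ioc (0 : ℝ) (2 * Real.pi),
                  ENNReal.ofReal (W (Complex.exp ((θ : ℂ) * Complex.I))) *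
                    ‖p.eval (Complex.exp ((θ : ℂ) * Complex.I)) -
                      g (Complex.exp ((θ : ℂ) * Complex.I))‖ₑ ^ (2 : ℕ)) < ENNReal.ofReal ε,
        ∀ E : Set ℂ,
          MeasurableSet E →
          (∀ a b : ℝ, a < b →
            0 < volume {θ : ℝ | θ ∈ Set.Ioo a b ∧ Complex.exp ((θ : ℂ) * Complex.I) ∉ E}) →
          ∀ g : ℂ → ℂ, Measurable g →
            (∫⁻ θ in {θ : ℝ | θ ∈ Set.Ioc (0 : ℝ) (2 * Real.pi) ∧
                Complex.exp ((θ : ℂ) * Complex.I) ∈ E},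
              ‖g (Complex.exp ((θ : ℂ) * Complex.I))‖ₑ ^ (2 : ℕ)) < ⊤ →
            ∀ ε : ℝ, 0 < ε →
              ∃ p : Polynomial ℂ,
                (∫⁻ z in Metric.ball (0 : ℂ) 1,
                  ENNReal.ofReal (G ‖z‖) * ‖p.eval z‖ₑ ^ (2 : ℕ)) < ENNReal.ofReal ε ∧
                (∫⁻ θ in {θ : ℝ | θ ∈ Set.Ioc (0 : ℝ) (2 * Real.pi) ∧
                    Complex.exp ((θ : ℂ) * Complex.I) ∈ E},
                  ‖p.eval (Complex.exp ((θ : ℂ) * Complex.I)) -
                    g (Complex.exp ((θ : ℂ) * Complex.I))‖ₑ ^ (2 : ℕ)) < ENNReal.ofReal ε,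
        ∃ (C : ℝ) (n0 : ℕ) (l : ℕ → ℝ), 0 < C ∧ (∀ n : ℕ, 0 < l n) ∧ Monotone l ∧
          (∀ n : ℕ, n0 ≤ n →
            (∫⁻ z in Metric.ball (0 : ℂ) 1 \ Metric.ball (0 : ℂ) (1 - (1 / 2 : ℝ) ^ n),
              ENNReal.ofReal (G ‖z‖)) ≤ ENNReal.ofReal (Real.exp (-l n))) ∧
          ∀ i j : ℕ, n0 ≤ i → i ≤ j → ∃ N : ℕ,
            (1 / 2 : ℝ) ^ i * l i ≤ C * (l j * ((1 / 2 : ℝ) ^ j +
              ∑ t ∈ Finset.Ico j N, (1 / 2 : ℝ) ^ t * Real.log (l (t + 1) / l t)))] := by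
  intro G hG _ hfin
  tfae_have 1 → 2 := fun h E hE hT => Pool.Agent.MP_17fac5_an.Ch.split_of_W h hE hT
  tfae_have 2 → 3 := fun h => by
    by_contra hn
    obtain ⟨E, hE, hT, hS⟩ := Pool.Agent.MP_17fac5_an.Ch.no_split hG hfin hn
    exact hS (h E hE hT)
  tfae_have 3 → 1 := fun h W hW hW0 hWi hT =>
    Pool.Agent.MP_17fac5_an.Ch.splits hG hfin h hW hW0 hWi fun a b hab =>
      (hT a b hab).trans_le (measure_mono fun θ hθ => ⟨hθ.1, not_not.2 hθ.2⟩)
  tfae_finish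

end Pool.Agent.Results.MP_17fac5_an.ThinZeroSplit
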